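import Pool.Agent.helper79.WB.SpecII

/-!
Row wb:II.HF (MP_bb5cc8_nt): factors of forms are forms.
-/

set_option autoImplicit false

namespace Pool.Agent.WB

open MvPolynomial

/-- The substitution `X i ↦ X i * T`. -/
noncomputable def scal43 : MvPolynomial (Fin 3) ℤ →ₐ[ℤ] Polynomial (MvPolynomial (Fin 3) ℤ) :=
  aeval (fun i => Polynomial.C (X i) * Polynomial.X)

theorem scal43_hom (p : MvPolynomial (Fin 3) ℤ) (n : ℕ) (hp : p.IsHomogeneous n) :
    scal43 p = Polynomial.C p * Polynomial.X ^ n := by
  have h1 : scal43 p = ∑ d ∈ p.support, (Polynomial.C (monomial d (coeff d p)) : Polynomial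
      (MvPolynomial (Fin 3) ℤ)) * Polynomial.X ^ n := by
    rw [scal43, aeval_def, eval₂_eq']
    refine Finset.sum_congr rfl fun d hd => ?_
    have hdeg : ∑ i, d i = n := by
      rw [← Finsupp.degree_eq_sum]
      by_contra hne
      exact (mem_support_iff.1 hd) (hp.coeff_eq_zero hne)
    have h2 : (monomial d (coeff d p) : MvPolynomial (Fin 3) ℤ) =
        C (coeff d p) * ∏ i, X i ^ d i := by
      rw [monomial_eq, Finsupp.prod_fintype]
      intro i
      exact pow_zero _
    have h3 : (algebraMap ℤ (Polynomial (MvPolynomial (Fin 3) ℤ))) (coeff d p) =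
        Polynomial.C (C (coeff d p)) := rfl
    have h4 : ∏ i, ((Polynomial.C (X i) * Polynomial.X : Polynomial (MvPolynomial (Fin 3) ℤ))
        ^ d i) = Polynomial.C (∏ i, X i ^ d i) * Polynomial.X ^ n := by
      rw [Finset.prod_congr rfl (fun i _ => mul_pow (Polynomial.C (X i)) Polynomial.X (d i)),
        Finset.prod_mul_distrib, Finset.prod_pow_eq_pow_sum, hdeg, map_prod,
        Finset.prod_congr rfl (fun i _ => (map_pow Polynomial.C (X i) (d i)).symm)]
    rw [h3, h4, h2, map_mul, mul_assoc]
  rw [h1, ← Finset.sum_mul, ← map_sum, support_sum_monomial_coeff]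

theorem scal43_sum (p : MvPolynomial (Fin 3) ℤ) :
    scal43 p = ∑ i ∈ Finset.range (p.totalDegree + 1),
      Polynomial.C (homogeneousComponent i p) * Polynomial.X ^ i := by
  conv_lhs => rw [← sum_homogeneousComponent p]
  rw [map_sum]
  exact Finset.sum_congr rfl fun i _ => scal43_hom _ _ (homogeneousComponent_isHomogeneous i p)

theorem scal43_coeff (p : MvPolynomial (Fin 3) ℤ) (k : ℕ) :
    (scal43 p).coeff k = homogeneousComponent k p := by
  rw [scal43_sum, Polynomial.finsetSum_coeff]
  by_cases hk : k ∈ Finset.range (p.totalDegree + 1)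
  · rw [Finset.sum_eq_single k]
    · rw [Polynomial.coeff_C_mul, Polynomial.coeff_X_pow, if_pos rfl, mul_one]
    · intro j _ hj
      rw [Polynomial.coeff_C_mul, Polynomial.coeff_X_pow, if_neg (Ne.symm hj), mul_zero]
    · intro h
      exact absurd hk h
  · have h0 : homogeneousComponent k p = 0 := by
      apply homogeneousComponent_eq_zero
      rw [Finset.mem_range] at hk
      omega
    rw [h0]
    refine Finset.sum_eq_zero fun j hj => ?_
    have hj' : k ≠ j := fun h => hk (h ▸ hj)
    rw [Polynomial.coeff_C_mul, Polynomial.coeff_X_pow, if_neg hj', mul_zero]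

theorem scal43_ne (p : MvPolynomial (Fin 3) ℤ) (hp : p ≠ 0) : scal43 p ≠ 0 := by
  intro h
  apply hp
  rw [← sum_homogeneousComponent p]
  refine Finset.sum_eq_zero fun i _ => ?_
  rw [← scal43_coeff, h, Polynomial.coeff_zero]

theorem isHom43 (p : MvPolynomial (Fin 3) ℤ) (hp : p ≠ 0)
    (h : (scal43 p).natTrailingDegree = (scal43 p).natDegree) :
    p.IsHomogeneous (scal43 p).natDegree := by
  have h1 : homogeneousComponent (scal43 p).natDegree p = p := by
    conv_rhs => rw [← sum_homogeneousComponent p]
    have h2 : ∀ i, i ≠ (scal43 p).natDegree → homogeneousComponent i p = 0 := by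
      intro i hi
      rw [← scal43_coeff]
      rcases lt_or_gt_of_ne hi with h3 | h3
      · exact Polynomial.coeff_eq_zero_of_lt_natTrailingDegree (h ▸ h3)
      · exact Polynomial.coeff_eq_zero_of_natDegree_lt h3
    by_cases hk : (scal43 p).natDegree ∈ Finset.range (p.totalDegree + 1)
    · rw [Finset.sum_eq_single _ (fun i _ hi => h2 i hi) (fun h => absurd hk h)]
    · exfalso
      apply hp
      rw [← sum_homogeneousComponent p]
      exact Finset.sum_eq_zero fun i hi => h2 i (fun h => hk (h ▸ hi))
  have h3 := homogeneousComponent_isHomogeneous (scal43 p).natDegree p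
  rw [h1] at h3
  exact h3

/-- Row HF. -/
theorem HF : HF_stmt := by
  intro p q n hn hpq
  have hp : p ≠ 0 := left_ne_zero_of_mul hpq
  have hq : q ≠ 0 := right_ne_zero_of_mul hpq
  have hfp := scal43_ne p hp
  have hfq := scal43_ne q hq
  have hprod : scal43 p * scal43 q = Polynomial.C (p * q) * Polynomial.X ^ n := by
    rw [← map_mul, scal43_hom _ _ hn]
  have hdeg : (scal43 p).natDegree + (scal43 q).natDegree = n := by
    rw [← Polynomial.natDegree_mul hfp hfq, hprod, Polynomial.natDegree_C_mul_X_pow _ _ hpq]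
  have htr : (scal43 p).natTrailingDegree + (scal43 q).natTrailingDegree = n := by
    rw [← Polynomial.natTrailingDegree_mul hfp hfq, hprod, Polynomial.C_mul_X_pow_eq_monomial,
      Polynomial.natTrailingDegree_monomial hpq]
  have h1 := Polynomial.natTrailingDegree_le_natDegree (scal43 p)
  have h2 := Polynomial.natTrailingDegree_le_natDegree (scal43 q)
  have hP := isHom43 p hp (by omega)
  have hQ := isHom43 q hq (by omega)
  have tP := hP.totalDegree hp
  have tQ := hQ.totalDegree hq
  refine ⟨?_, ?_, ?_⟩
  · rw [tP]; exact hP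
  · rw [tQ]; exact hQ
  · rw [tP, tQ]; exact hdeg

end Pool.Agent.WB
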