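import Pool.Agent.helper75.WB.SpecI

/-!
Row wb:I.ISG (MP_bb5cc8_nt): a chart with many flags.
-/

set_option autoImplicit false

namespace Pool.Agent.WB

open Finset

/-- Row ISG. -/
theorem ISG (hITL : ITL_stmt) (hICC : ICC_stmt) : ISG_stmt := by
  intro M X0 Y Q r E P hQ hr hP hD
  obtain ⟨hcard, hne⟩ := hICC Q hQ
  have h1 := hITL M X0 Y Q (prs Y).card r E P hr hP hD
  obtain ⟨c, hc, hmax⟩ := Finset.exists_max_image (Ch Q) (fun c => (TG X0 Y E P c).card) hne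
  refine ⟨c, hc, ?_⟩
  have h2 : ∑ c' ∈ Ch Q, (TG X0 Y E P c').card ≤ (Ch Q).card * (TG X0 Y E P c).card := by
    have := Finset.sum_le_card_nsmul (Ch Q) (fun c' => (TG X0 Y E P c').card) _ hmax
    simpa [smul_eq_mul] using this
  have h3 : E.card * r ^ 2 * (prs Y).card ≤ 4 * ((Ch Q).card * (TG X0 Y E P c).card) :=
    h1.trans (Nat.mul_le_mul_left 4 h2)
  have h4 : ((E.card * r ^ 2 * (prs Y).card : ℕ) : ℝ) ≤
      ((4 * ((Ch Q).card * (TG X0 Y E P c).card) : ℕ) : ℝ) := by exact_mod_cast h3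
  push_cast at h4
  have h5 : ((Ch Q).card : ℝ) * ((TG X0 Y E P c).card : ℝ) ≤
      (2 * Q + 1) ^ 2 * ((TG X0 Y E P c).card : ℝ) :=
    mul_le_mul_of_nonneg_right hcard (Nat.cast_nonneg _)
  calc (E.card : ℝ) * (r : ℝ) ^ 2 * ((prs Y).card : ℝ)
      ≤ 4 * (((Ch Q).card : ℝ) * ((TG X0 Y E P c).card : ℝ)) := h4
    _ ≤ 4 * ((2 * Q + 1) ^ 2 * ((TG X0 Y E P c).card : ℝ)) := by linarith
    _ = 4 * (2 * Q + 1) ^ 2 * (TG X0 Y E P c).card := by ring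

end Pool.Agent.WB
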